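import Mathlib
import Pool.Agent.Lib.MP_209724_lc.SC.Ed0
import Pool.Agent.Lib.MP_209724_lc.SC.Ed10
import Pool.Agent.Lib.MP_209724_lc.SC.Core
import Pool.Agent.Lib.MP_209724_lc.SC2.Final
import Pool.Agent.Lib.MP_209724_lc.CT.DenseT
import Pool.Agent.Lib.MP_209724_lc.GF.Final

section

/-!
# Uniqueness for homogeneous linear differential equations
-/

namespace Pool.Agent.Lib.MP_209724_lc.SC4

open Filter Topology Set

/-- Proof: `‖u' τ‖ ≤ s * K * ‖u τ‖` (sup norm on `Fin s → ℂ`), and Gronwall's inequality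
(`norm_le_gronwallBound_of_norm_deriv_right_le` with `δ = 0`, `ε = 0`; or
`eq_zero_of_abs_deriv_le_mul_abs_self_of_eq_zero_left`, `ODE_solution_unique_of_mem_Icc_right` with the
solution `0`). -/
theorem eq_zero_of_linear {s : ℕ} (u u' : ℝ → Fin s → ℂ) (B : ℝ → Fin s → Fin s → ℂ) (K : ℝ)
    (hB : ∀ τ ∈ Icc (0 : ℝ) 1, ∀ a b, ‖B τ a b‖ ≤ K)
    (hu : ∀ τ ∈ Icc (0 : ℝ) 1, HasDerivAt u (u' τ) τ)
    (h : ∀ τ ∈ Icc (0 : ℝ) 1, ∀ a, u' τ a = ∑ b, B τ a b * u τ b) (h0 : u 0 = 0) :
    ∀ τ ∈ Icc (0 : ℝ) 1, u τ = 0 := by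
  have hK : ∀ τ ∈ Icc (0 : ℝ) 1, ‖u' τ‖ ≤ ((s : ℝ) * |K|) * ‖u τ‖ + 0 := by
    intro τ hτ
    rw [add_zero, pi_norm_le_iff_of_nonneg (by positivity)]
    intro a
    rw [h τ hτ a]
    refine (norm_sum_le _ _).trans ?_
    have h1 : ∀ b ∈ Finset.univ, ‖B τ a b * u τ b‖ ≤ |K| * ‖u τ‖ := by
      intro b _
      rw [norm_mul]
      exact mul_le_mul ((hB τ hτ a b).trans (le_abs_self K)) (norm_le_pi_norm _ b)
        (norm_nonneg _) (abs_nonneg _)
    refine (Finset.sum_le_sum h1).trans ?_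
    rw [Finset.sum_const, Finset.card_univ, Fintype.card_fin, nsmul_eq_mul, mul_assoc]
  have hc : ContinuousOn u (Icc (0 : ℝ) 1) := fun τ hτ =>
    (hu τ hτ).continuousAt.continuousWithinAt
  intro τ hτ
  have h2 := norm_le_gronwallBound_of_norm_deriv_right_le hc
    (fun x hx => (hu x (Ico_subset_Icc_self hx)).hasDerivWithinAt) (δ := 0)
    (by rw [h0, norm_zero]) (fun x hx => hK x (Ico_subset_Icc_self hx)) τ hτ
  rw [gronwallBound_ε0_δ0] at h2
  exact norm_le_zero_iff.mp h2

end Pool.Agent.Lib.MP_209724_lc.SC4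
end

section

/-!
# Curves of solutions of square systems of exponential polynomials
-/

namespace Pool.Agent.Lib.MP_209724_lc.SC4

open MvPolynomial Filter Topology Set Pool.Agent.Lib.MP_209724_lc.SC

private noncomputable def cuPhi {k : Type} [Field k] [Algebra k ℂ] {n : ℕ}
    (f : Fin n → MvPolynomial (Fin n ⊕ Fin n) k) (z : Fin n → ℂ) : Fin n → ℂ := fun i => expG (f i) z

private noncomputable def cuL {k : Type} [Field k] [Algebra k ℂ] {n : ℕ}
    (f : Fin n → MvPolynomial (Fin n ⊕ Fin n) k) (P : Fin n → ℂ) : (Fin n → ℂ) →L[ℂ] (Fin n → ℂ) :=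
  ContinuousLinearMap.pi fun i =>
    ∑ j, expG (eD j (f i)) P • (ContinuousLinearMap.proj j : (Fin n → ℂ) →L[ℂ] ℂ)

private theorem cuL_apply {k : Type} [Field k] [Algebra k ℂ] {n : ℕ}
    (f : Fin n → MvPolynomial (Fin n ⊕ Fin n) k) (P w : Fin n → ℂ) (i : Fin n) :
    cuL f P w i = ∑ j, expG (eD j (f i)) P * w j := by
  show (∑ j, expG (eD j (f i)) P • (ContinuousLinearMap.proj j : (Fin n → ℂ) →L[ℂ] ℂ)) w = _
  exact sum_proj_apply0 (𝕜 := ℂ) (fun j => expG (eD j (f i)) P) w

private theorem cu_hasFDerivAt {k : Type} [Field k] [Algebra k ℂ] {n : ℕ}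
    (f : Fin n → MvPolynomial (Fin n ⊕ Fin n) k) (P : Fin n → ℂ) :
    HasFDerivAt (cuPhi f) (cuL f P) P :=
  hasFDerivAt_pi.2 fun i => (hasStrictFDerivAt_expG (f i) P).hasFDerivAt

private theorem cu_contDiff {k : Type} [Field k] [Algebra k ℂ] {n : ℕ}
    (f : Fin n → MvPolynomial (Fin n ⊕ Fin n) k) : ContDiff ℂ 1 (cuPhi f) := by
  rw [contDiff_pi]
  intro i
  exact contDiff_expG (f i) 1

private theorem cu_inj {k : Type} [Field k] [Algebra k ℂ] {n : ℕ}
    (f : Fin n → MvPolynomial (Fin n ⊕ Fin n) k) (P : Fin n → ℂ)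
    (hdet : Matrix.det (fun i j => expG (eD j (f i)) P) ≠ 0) :
    Function.Injective (cuL f P : (Fin n → ℂ) →ₗ[ℂ] (Fin n → ℂ)) := by
  rw [← LinearMap.ker_eq_bot, LinearMap.ker_eq_bot']
  intro w hw
  refine Matrix.eq_zero_of_mulVec_eq_zero (M := Matrix.of fun i j => expG (eD j (f i)) P) hdet ?_
  funext i
  show ∑ j, expG (eD j (f i)) P * w j = 0
  rw [← cuL_apply]
  exact congrFun hw i

/-- **Solution curves.** Let `Φ z = (expG (f i) z)_i : ℂⁿ → ℂⁿ`. It is smooth (`contDiff_expG`), with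
strict derivative `w ↦ (∑ j, expG (eD j (f i)) z * w j)_i` at every `z` (`hasStrictFDerivAt_expG`), invertible at
`p` by `hdet`, and invertible on the open set where the determinant is not `0`. By the inverse function
theorem (`ContDiffAt.toOpenPartialHomeomorph`, `ContDiffAt.to_localInverse`, or
`HasStrictFDerivAt.toOpenPartialHomeomorph`) there is a local inverse `Ψ` at `Φ p`, with values in the
neighbourhood `U ∩ {det ≠ 0}` of `p` near `Φ p`, differentiable near `Φ p` (`ContDiffAt ... .eventually` or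
`HasStrictFDerivAt.to_local_inverse` at every point, `OpenPartialHomeomorph.hasFDerivAt_symm`). For small `w` the points
`Φ p + τ v`, `v i = ∑ l, r i l * w l`, `τ ∈ [0, 1]`, are in this neighbourhood; put `z τ = Ψ (Φ p + τ v)`. Its
derivative satisfies the linear system because `Φ (z τ) = Φ p + τ v` near every `τ ∈ [0, 1]` (chain
rule, uniqueness of derivatives). -/
theorem exists_curve {k : Type} [Field k] [Algebra k ℂ] {n e : ℕ}
    (f : Fin n → MvPolynomial (Fin n ⊕ Fin n) k) (p : Fin n → ℂ)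
    (hdet : Matrix.det (fun i j => expG (eD j (f i)) p) ≠ 0) {U : Set (Fin n → ℂ)} (hU : U ∈ 𝓝 p)
    (r : Fin n → Fin e → ℂ) :
    ∃ ε : ℝ, 0 < ε ∧ ∀ w : Fin e → ℂ, ‖w‖ < ε → ∃ z z' : ℝ → Fin n → ℂ, z 0 = p ∧
      ∀ τ ∈ Icc (0 : ℝ) 1, z τ ∈ U ∧ HasDerivAt z (z' τ) τ ∧
        Matrix.det (fun i j => expG (eD j (f i)) (z τ)) ≠ 0 ∧
        ∀ i, ∑ j, expG (eD j (f i)) (z τ) * z' τ j = ∑ l, r i l * w l := by
  have hinj := cu_inj f p hdet
  set e' : (Fin n → ℂ) ≃L[ℂ] (Fin n → ℂ) :=
    (LinearEquiv.ofInjectiveEndo (cuL f p : (Fin n → ℂ) →ₗ[ℂ] (Fin n → ℂ)) hinj).toContinuousLinearEquiv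
    with he
  have he' : (e' : (Fin n → ℂ) →L[ℂ] (Fin n → ℂ)) = cuL f p := by
    ext1 w
    rfl
  have hf : ContDiffAt ℂ 1 (cuPhi f) p := (cu_contDiff f).contDiffAt
  have hf' : HasFDerivAt (cuPhi f) (e' : (Fin n → ℂ) →L[ℂ] (Fin n → ℂ)) p := by
    rw [he']
    exact cu_hasFDerivAt f p
  set Ψ := hf.localInverse hf' one_ne_zero with hΨ
  have hΨP : Ψ (cuPhi f p) = p := hf.localInverse_apply_image hf' one_ne_zero
  have hcd : ContDiffAt ℂ 1 Ψ (cuPhi f p) := hf.to_localInverse hf' one_ne_zero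
  have ev1 : ∀ᶠ w in 𝓝 (cuPhi f p), ContDiffAt ℂ 1 Ψ w := hcd.eventually (by simp)
  have ev2 : ∀ᶠ w in 𝓝 (cuPhi f p), cuPhi f (Ψ w) = w :=
    (hf.hasStrictFDerivAt' hf' one_ne_zero).eventually_right_inverse
  have ev3 : ∀ᶠ w in 𝓝 (cuPhi f p), Matrix.det (fun i j => expG (eD j (f i)) (Ψ w)) ≠ 0 := by
    have hc : ContinuousAt (fun w => Matrix.det (fun i j => expG (eD j (f i)) (Ψ w)))
        (cuPhi f p) := by
      have h1 : Continuous fun v : Fin n → ℂ => Matrix.det (fun i j => expG (eD j (f i)) v) := by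
        refine Continuous.matrix_det ?_
        refine continuous_pi fun i => continuous_pi fun j => ?_
        exact (contDiff_expG (eD j (f i)) 0).continuous
      exact h1.continuousAt.comp hcd.continuousAt
    refine hc.eventually_ne ?_
    show Matrix.det (fun i j => expG (eD j (f i)) (Ψ (cuPhi f p))) ≠ 0
    rw [hΨP]
    exact hdet
  have ev4 : ∀ᶠ w in 𝓝 (cuPhi f p), Ψ w ∈ U := by
    have h1 : Tendsto Ψ (𝓝 (cuPhi f p)) (𝓝 (Ψ (cuPhi f p))) := hcd.continuousAt
    rw [hΨP] at h1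
    exact h1 hU
  obtain ⟨δ, hδ, hball⟩ := Metric.eventually_nhds_iff_ball.1 (ev1.and (ev2.and (ev3.and ev4)))
  set C : ℝ := (∑ i, ∑ l, ‖r i l‖) + 1 with hC
  have hC0 : 0 < C := by positivity
  refine ⟨δ / C, div_pos hδ hC0, fun w hw => ?_⟩
  set v : Fin n → ℂ := fun i => ∑ l, r i l * w l with hv
  have hvn : ‖v‖ < δ := by
    have h1 : ‖v‖ ≤ C * ‖w‖ := by
      rw [pi_norm_le_iff_of_nonneg (by positivity)]
      intro i
      calc ‖v i‖ ≤ ∑ l, ‖r i l * w l‖ := norm_sum_le _ _
        _ ≤ ∑ l, ‖r i l‖ * ‖w‖ := by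
            refine Finset.sum_le_sum fun l _ => ?_
            rw [norm_mul]
            exact mul_le_mul_of_nonneg_left (norm_le_pi_norm w l) (norm_nonneg _)
        _ = (∑ l, ‖r i l‖) * ‖w‖ := by rw [Finset.sum_mul]
        _ ≤ C * ‖w‖ := by
            refine mul_le_mul_of_nonneg_right ?_ (norm_nonneg _)
            have h2 : ∑ l, ‖r i l‖ ≤ ∑ i, ∑ l, ‖r i l‖ :=
              Finset.single_le_sum (f := fun i => ∑ l, ‖r i l‖)
                (fun j _ => Finset.sum_nonneg fun l _ => norm_nonneg _) (Finset.mem_univ i)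
            linarith
    have h2 : C * ‖w‖ < C * (δ / C) := mul_lt_mul_of_pos_left hw hC0
    have h3 : C * (δ / C) = δ := by field_simp
    linarith
  set q : ℝ → Fin n → ℂ := fun τ => cuPhi f p + (τ : ℂ) • v with hq
  have hqc : Continuous q :=
    continuous_const.add (Complex.continuous_ofReal.smul continuous_const)
  have hqball : ∀ τ ∈ Icc (0 : ℝ) 1, q τ ∈ Metric.ball (cuPhi f p) δ := by
    intro τ hτ
    rw [mem_ball_iff_norm]
    show ‖cuPhi f p + (τ : ℂ) • v - cuPhi f p‖ < δ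
    rw [add_sub_cancel_left, norm_smul, Complex.norm_real, Real.norm_eq_abs, abs_of_nonneg hτ.1]
    calc τ * ‖v‖ ≤ 1 * ‖v‖ := mul_le_mul_of_nonneg_right hτ.2 (norm_nonneg _)
      _ < δ := by rw [one_mul]; exact hvn
  have hqd : ∀ τ : ℝ, HasDerivAt q v τ := by
    intro τ
    have h1 : HasDerivAt (fun τ : ℝ => (τ : ℂ)) 1 τ := Complex.ofRealCLM.hasDerivAt
    have h2 := (h1.smul_const v).const_add (cuPhi f p)
    rw [one_smul] at h2
    exact h2
  refine ⟨fun τ => Ψ (q τ), fun τ => fderiv ℂ Ψ (q τ) v, ?_, ?_⟩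
  · show Ψ (cuPhi f p + ((0 : ℝ) : ℂ) • v) = p
    rw [Complex.ofReal_zero, zero_smul, add_zero, hΨP]
  · intro τ hτ
    obtain ⟨g1, g2, g3, g4⟩ := hball (q τ) (hqball τ hτ)
    have hd1 : HasFDerivAt Ψ (fderiv ℂ Ψ (q τ)) (q τ) :=
      (g1.differentiableAt one_ne_zero).hasFDerivAt
    have hd2 : HasDerivAt (fun τ => Ψ (q τ)) (fderiv ℂ Ψ (q τ) v) τ :=
      (hd1.restrictScalars ℝ).comp_hasDerivAt τ (hqd τ)
    refine ⟨g4, hd2, g3, fun i => ?_⟩
    have hd3 : HasDerivAt (fun τ => cuPhi f (Ψ (q τ)))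
        (cuL f (Ψ (q τ)) (fderiv ℂ Ψ (q τ) v)) τ := by
      have h1 : HasFDerivAt (cuPhi f) ((cuL f (Ψ (q τ))).restrictScalars ℝ)
          ((fun τ => Ψ (q τ)) τ) := (cu_hasFDerivAt f (Ψ (q τ))).restrictScalars ℝ
      exact h1.comp_hasDerivAt τ hd2
    have hev : (fun τ => cuPhi f (Ψ (q τ))) =ᶠ[𝓝 τ] q := by
      have h1 : ∀ᶠ τ' in 𝓝 τ, q τ' ∈ Metric.ball (cuPhi f p) δ :=
        hqc.continuousAt.eventually (Metric.isOpen_ball.mem_nhds (hqball τ hτ))
      filter_upwards [h1] with τ' hτ'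
      exact (hball (q τ') hτ').2.1
    have hd4 : HasDerivAt q (cuL f (Ψ (q τ)) (fderiv ℂ Ψ (q τ) v)) τ :=
      hd3.congr_of_eventuallyEq hev.symm
    have hd5 := hd4.unique (hqd τ)
    have hd6 := congrFun hd5 i
    rw [cuL_apply] at hd6
    exact hd6

end Pool.Agent.Lib.MP_209724_lc.SC4
end

section

/-!
# Polynomial vector fields tangent to the leaves

`F = k(V)` with generic point `(x, y)`, `D l` derivations with `D l (y i) = y i * D l (x i)`.
-/

namespace Pool.Agent.Lib.MP_209724_lc.SC4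

open MvPolynomial Pool.Agent.Lib.MP_209724_lc.SC

private theorem o_add {k : Type} [Field k] {m : ℕ} (i : Fin m)
    (F G : MvPolynomial (Fin m ⊕ Fin m) k) : eD i (F + G) = eD i F + eD i G := by
  simp only [eD, map_add]; ring

private theorem o_mul {k : Type} [Field k] {m : ℕ} (i : Fin m)
    (F G : MvPolynomial (Fin m ⊕ Fin m) k) : eD i (F * G) = F * eD i G + G * eD i F := by
  simp only [eD, Derivation.leibniz, smul_eq_mul]; ring

private theorem o_C {k : Type} [Field k] {m : ℕ} (i : Fin m) (c : k) :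
    eD i (C c : MvPolynomial (Fin m ⊕ Fin m) k) = 0 := by
  simp [eD]

private theorem o_inl {k : Type} [Field k] {m : ℕ} (i j : Fin m) :
    eD i (X (Sum.inl j) : MvPolynomial (Fin m ⊕ Fin m) k) = if j = i then 1 else 0 := by
  classical
  simp only [eD, pderiv_X]
  by_cases h : j = i
  · subst h; simp
  · simp [h]

private theorem o_inr {k : Type} [Field k] {m : ℕ} (i j : Fin m) :
    eD i (X (Sum.inr j) : MvPolynomial (Fin m ⊕ Fin m) k) =
      if j = i then X (Sum.inr j) else 0 := by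
  classical
  simp only [eD, pderiv_X]
  by_cases h : j = i
  · subst h; simp
  · simp [h]

/-- **Polynomial vector fields.** Put `M i j = eD j (f i)` and
`c j l = ∑ i, adj(M) j i * C (r i l)`. First claim: `M * adj(M) = det M • 1` (`Matrix.mul_adjugate`).
Second claim: for every `h`, `D l (h(x, y)) = ∑ j, (eD j h)(x, y) * D l (x j)` (induction on `h`, uses
`D l (y j) = y j * D l (x j)`; see `ff6_deriv` in `SC/FF6.lean`), and
`det M (x, y) * D l (x j) = ∑ i, adj(M) j i (x, y) * ∑ j', M i j' (x, y) * D l (x j')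
= ∑ i, adj(M) j i (x, y) * r i l = c j l (x, y)` (`Matrix.adjugate_mul`). -/
theorem exists_ops {k F : Type} [Field k] [Field F] [Algebra k F] {n e : ℕ} (x y : Fin n → F)
    (D : Fin e → Derivation k F F) (hxy : ∀ l i, D l (y i) = y i * D l (x i))
    (f : Fin n → MvPolynomial (Fin n ⊕ Fin n) k) (r : Fin n → Fin e → k)
    (hr : ∀ i l, D l (aeval (Sum.elim x y) (f i)) = algebraMap k F (r i l)) :
    ∃ c : Fin n → Fin e → MvPolynomial (Fin n ⊕ Fin n) k,
      (∀ i l, ∑ j, eD j (f i) * c j l = C (r i l) * Matrix.det (fun i j => eD j (f i))) ∧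
      ∀ l h, aeval (Sum.elim x y) (∑ j, c j l * eD j h) =
        aeval (Sum.elim x y) (Matrix.det (fun i j => eD j (f i))) *
          D l (aeval (Sum.elim x y) h) := by
  classical
  set M : Matrix (Fin n) (Fin n) (MvPolynomial (Fin n ⊕ Fin n) k) :=
    fun i j => eD j (f i) with hM
  have hD : ∀ l (h : MvPolynomial (Fin n ⊕ Fin n) k), D l (aeval (Sum.elim x y) h) =
      ∑ j, aeval (Sum.elim x y) (eD j h) * D l (x j) := by
    intro l h
    induction h using MvPolynomial.induction_on with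
    | C a =>
      simp only [aeval_C, Derivation.map_algebraMap, o_C, map_zero, zero_mul,
        Finset.sum_const_zero]
    | add p q hp hq =>
      simp only [map_add, hp, hq, o_add, add_mul, Finset.sum_add_distrib]
    | mul_X p i hp =>
      have hX : D l (aeval (Sum.elim x y) (X i : MvPolynomial (Fin n ⊕ Fin n) k)) =
          ∑ j, aeval (Sum.elim x y) (eD j (X i : MvPolynomial (Fin n ⊕ Fin n) k)) *
            D l (x j) := by
        rcases i with i | i
        · rw [Finset.sum_eq_single i]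
          · simp [o_inl]
          · intro j _ hj
            simp [o_inl, Ne.symm hj]
          · intro h
            exact absurd (Finset.mem_univ _) h
        · rw [Finset.sum_eq_single i]
          · simp [o_inr, hxy]
          · intro j _ hj
            simp [o_inr, Ne.symm hj]
          · intro h
            exact absurd (Finset.mem_univ _) h
      rw [map_mul, Derivation.leibniz, hp, hX, smul_eq_mul, smul_eq_mul, Finset.mul_sum,
        Finset.mul_sum, ← Finset.sum_add_distrib]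
      refine Finset.sum_congr rfl fun j _ => ?_
      rw [o_mul, map_add, map_mul, map_mul]
      ring
  refine ⟨fun j l => ∑ i, M.adjugate j i * C (r i l), ?_, ?_⟩
  · intro i l
    have h1 : ∑ j, eD j (f i) * ∑ i', M.adjugate j i' * C (r i' l) =
        ∑ i', (M * M.adjugate) i i' * C (r i' l) := by
      simp only [Matrix.mul_apply, Finset.mul_sum, Finset.sum_mul]
      rw [Finset.sum_comm]
      refine Finset.sum_congr rfl fun j _ => Finset.sum_congr rfl fun i' _ => ?_
      rw [hM]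
      ring
    rw [h1, Matrix.mul_adjugate, Finset.sum_eq_single i]
    · simp only [Matrix.smul_apply, Matrix.one_apply_eq, smul_eq_mul, mul_one]
      ring
    · intro j _ hj
      simp [Matrix.one_apply_ne (Ne.symm hj)]
    · intro h
      exact absurd (Finset.mem_univ _) h
  · intro l h
    have h2 : ∀ j, aeval (Sum.elim x y) (∑ i, M.adjugate j i * C (r i l)) =
        aeval (Sum.elim x y) M.det * D l (x j) := by
      intro j
      have h3 : ∀ i, algebraMap k F (r i l) =
          ∑ j', aeval (Sum.elim x y) (M i j') * D l (x j') := by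
        intro i
        rw [← hr, hD]
      simp only [map_sum, map_mul, aeval_C]
      have h4 : ∑ i, aeval (Sum.elim x y) (M.adjugate j i) * algebraMap k F (r i l) =
          ∑ j', aeval (Sum.elim x y) ((M.adjugate * M) j j') * D l (x j') := by
        simp only [h3, Matrix.mul_apply, map_sum, map_mul, Finset.mul_sum, Finset.sum_mul]
        rw [Finset.sum_comm]
        refine Finset.sum_congr rfl fun j' _ => Finset.sum_congr rfl fun i _ => ?_
        ring
      rw [h4, Matrix.adjugate_mul, Finset.sum_eq_single j]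
      · simp
      · intro j' _ hj
        simp [Matrix.one_apply_ne (Ne.symm hj)]
      · intro h
        exact absurd (Finset.mem_univ _) h
    rw [map_sum, hD, Finset.mul_sum]
    refine Finset.sum_congr rfl fun j _ => ?_
    rw [map_mul, h2]
    ring

end Pool.Agent.Lib.MP_209724_lc.SC4
end

section

/-!
# Exponential points near a nondegenerate one
-/

namespace Pool.Agent.Lib.MP_209724_lc.SC4

open MvPolynomial Filter Topology Set Pool.Agent.Lib.MP_209724_lc.SC

section Aux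

variable {k : Type} [Field k] [Algebra k ℂ] {m : ℕ}

private theorem op_sum {ι : Type*} (s : Finset ι) (f : ι → MvPolynomial (Fin m ⊕ Fin m) k)
    (v : Fin m → ℂ) : expG (∑ a ∈ s, f a) v = ∑ a ∈ s, expG (f a) v := by
  simp [expG]

private theorem op_det (M : Matrix (Fin m) (Fin m) (MvPolynomial (Fin m ⊕ Fin m) k))
    (v : Fin m → ℂ) : expG M.det v = Matrix.det (fun i j => expG (M i j) v) := by
  simp only [expG]
  rw [AlgHom.map_det]
  rfl

private theorem op_sub (F G : MvPolynomial (Fin m ⊕ Fin m) k) (v : Fin m → ℂ) :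
    expG (F - G) v = expG F v - expG G v := by
  simp [expG]

private theorem op_deriv (F : MvPolynomial (Fin m ⊕ Fin m) k) {z : ℝ → Fin m → ℂ}
    {z' : Fin m → ℂ} {τ : ℝ} (hz : HasDerivAt z z' τ) :
    HasDerivAt (fun τ => expG F (z τ)) (∑ i, expG (eD i F) (z τ) * z' i) τ := by
  obtain ⟨L, hL, hL'⟩ := exists_strict0 F (z τ)
  rw [← hL']
  exact (hL.hasFDerivAt.restrictScalars ℝ).comp_hasDerivAt τ hz

end Aux

/-- **Nearby exponential points.** `(x, y)` is a generic point of `V` over `k`, `D l` the derivations dual to the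
functions `G l`, compatible with `exp`. Near a nondegenerate exponential point `p` of `V` there are exponential
points of `V` with prescribed values of the `G l`.

Proof. Choose `r i l ∈ k` with `D l (f i (x, y)) = r i l` (`0` if `f i (x, y) = 0`; by `hdual` if `f i = G l'`). Take
`c` from `exists_ops` and `ε` from `exists_curve` for `U`, and `w = t - G(p)`, `‖w‖ < ε`, with the curve `z`. Since
`∑ j, M i j (z τ) * c j l (z τ) = r i l * det M (z τ)` (evaluate the first claim of `exists_ops`) and `det M (z τ) ≠ 0`,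
`z' τ j = ∑ l, c j l (z τ) * w l / det M (z τ)` (the matrix `M (z τ)` is injective). For a polynomial `h`,
`τ ↦ expG h (z τ)` has the derivative `∑ j, expG (eD j h) (z τ) * z' τ j = (∑ l, w l * expG (Δ l h) (z τ)) / det M (z τ)`,
`Δ l h = ∑ j, c j l * eD j h` (as in `hasDerivAt_expG`; chain rule with `hasStrictFDerivAt_expG`). Let
`I = ker (aeval (x, y))`, generated by finitely many `h a` (`MvPolynomial` is noetherian). By the second claim of
`exists_ops`, `Δ l (h a) ∈ I`, so `Δ l (h a) = ∑ b, A l a b * h b`. The functions `u τ a = expG (h a) (z τ)` satisfy the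
linear equation with `B τ a b = (∑ l, w l * expG (A l a b) (z τ)) / det M (z τ)`, continuous, hence bounded, on `[0, 1]`,
and `u 0 = 0`. By `eq_zero_of_linear`, `u = 0`, so all `z τ` are exponential points of `V`. Finally
`Δ l (G l') - C (if l = l' then 1 else 0) * det M ∈ I` (second claim, `hdual`), so
`τ ↦ expG (G l') (z τ) - τ * w l'` has derivative `0` on `[0, 1]`, and `p' = z 1` satisfies `G l' = t l'`. -/
theorem exists_open {k F : Type} [Field k] [Algebra k ℂ] [Field F] [Algebra k F] {n e : ℕ}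
    (x y : Fin n → F) (D : Fin e → Derivation k F F) (hxy : ∀ l i, D l (y i) = y i * D l (x i))
    (G : Fin e → MvPolynomial (Fin n ⊕ Fin n) k)
    (hdual : ∀ l l', D l (aeval (Sum.elim x y) (G l')) = if l = l' then 1 else 0)
    (f : Fin n → MvPolynomial (Fin n ⊕ Fin n) k)
    (hf : ∀ i, aeval (Sum.elim x y) (f i) = 0 ∨ ∃ l, f i = G l) (p : Fin n → ℂ)
    (hp : ∀ h : MvPolynomial (Fin n ⊕ Fin n) k, aeval (Sum.elim x y) h = 0 → expG h p = 0)
    (hdet : Matrix.det (fun i j => expG (eD j (f i)) p) ≠ 0) {U : Set (Fin n → ℂ)} (hU : U ∈ 𝓝 p) :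
    ∀ᶠ t in 𝓝 (fun l => expG (G l) p), ∃ p' ∈ U,
      (∀ h : MvPolynomial (Fin n ⊕ Fin n) k, aeval (Sum.elim x y) h = 0 → expG h p' = 0) ∧
        ∀ l, expG (G l) p' = t l := by
  classical
  -- the constants
  have hr : ∀ i, ∃ r : Fin e → k, ∀ l, D l (aeval (Sum.elim x y) (f i)) = algebraMap k F (r l) := by
    intro i
    rcases hf i with h | ⟨l', h⟩
    · exact ⟨fun _ => 0, fun l => by rw [h, map_zero, map_zero]⟩
    · refine ⟨fun l => if l = l' then 1 else 0, fun l => ?_⟩
      rw [h, hdual]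
      by_cases h0 : l = l'
      · rw [if_pos h0]
        simp [h0]
      · rw [if_neg h0]
        simp [h0]
  choose r hr using hr
  obtain ⟨c, hc1, hc2⟩ := exists_ops x y D hxy f r hr
  obtain ⟨ε, hε, hcurve⟩ := exists_curve f p hdet hU fun i l => algebraMap k ℂ (r i l)
  set M : Matrix (Fin n) (Fin n) (MvPolynomial (Fin n ⊕ Fin n) k) := fun i j => eD j (f i) with hM
  have hMdet : ∀ v, expG M.det v = Matrix.det (fun i j => expG (eD j (f i)) v) := op_det M
  -- the ideal
  let I : Ideal (MvPolynomial (Fin n ⊕ Fin n) k) :=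
    RingHom.ker (aeval (Sum.elim x y) : MvPolynomial (Fin n ⊕ Fin n) k →ₐ[k] F).toRingHom
  have hI : ∀ h, h ∈ I ↔ aeval (Sum.elim x y) h = 0 := fun h => Iff.rfl
  obtain ⟨s, g, hg⟩ := Submodule.fg_iff_exists_fin_generating_family.1
    (IsNoetherian.noetherian I)
  have hgI : ∀ a, aeval (Sum.elim x y) (g a) = 0 := by
    intro a
    rw [← hI, ← hg]
    exact Submodule.subset_span ⟨a, rfl⟩
  have hspan : ∀ h : MvPolynomial (Fin n ⊕ Fin n) k, aeval (Sum.elim x y) h = 0 →
      ∃ A : Fin s → MvPolynomial (Fin n ⊕ Fin n) k, ∑ b, A b * g b = h := by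
    intro h hh
    rw [← hI, ← hg, Submodule.mem_span_range_iff_exists_fun] at hh
    obtain ⟨A, hA⟩ := hh
    exact ⟨A, by simpa [smul_eq_mul] using hA⟩
  have hA : ∀ l a, ∃ A : Fin s → MvPolynomial (Fin n ⊕ Fin n) k,
      ∑ b, A b * g b = ∑ j, c j l * eD j (g a) := by
    intro l a
    refine hspan _ ?_
    rw [hc2, hgI, map_zero, mul_zero]
  choose A hA using hA
  rw [Metric.eventually_nhds_iff]
  refine ⟨ε, hε, fun t ht => ?_⟩
  let w : Fin e → ℂ := fun l => t l - expG (G l) p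
  have hw : ‖w‖ < ε := by
    rw [dist_eq_norm] at ht
    exact ht
  obtain ⟨z, z', hz0, hz⟩ := hcurve w hw
  have hzU : ∀ τ ∈ Icc (0 : ℝ) 1, z τ ∈ U := fun τ hτ => (hz τ hτ).1
  have hzd : ∀ τ ∈ Icc (0 : ℝ) 1, HasDerivAt z (z' τ) τ := fun τ hτ => (hz τ hτ).2.1
  have hzdet : ∀ τ ∈ Icc (0 : ℝ) 1, Matrix.det (fun i j => expG (eD j (f i)) (z τ)) ≠ 0 :=
    fun τ hτ => (hz τ hτ).2.2.1
  have hzc : ContinuousOn z (Icc (0 : ℝ) 1) := fun τ hτ =>
    (hzd τ hτ).continuousAt.continuousWithinAt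
  -- Cramer
  have hz' : ∀ τ ∈ Icc (0 : ℝ) 1, ∀ j,
      expG M.det (z τ) * z' τ j = ∑ l, expG (c j l) (z τ) * w l := by
    intro τ hτ
    have h1 : (fun j => expG M.det (z τ) * z' τ j - ∑ l, expG (c j l) (z τ) * w l) = 0 := by
      refine Matrix.eq_zero_of_mulVec_eq_zero (hzdet τ hτ) ?_
      funext i
      show ∑ j, expG (eD j (f i)) (z τ) *
        (expG M.det (z τ) * z' τ j - ∑ l, expG (c j l) (z τ) * w l) = 0
      have h2 := (hz τ hτ).2.2.2 i
      have h3 : ∀ l, ∑ j, expG (eD j (f i)) (z τ) * expG (c j l) (z τ) =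
          algebraMap k ℂ (r i l) * expG M.det (z τ) := by
        intro l
        have h4 := congrArg (fun q => expG q (z τ)) (hc1 i l)
        simp only [op_sum, expG_mul0, expG_C0] at h4
        exact h4
      have h5 : ∑ j, expG (eD j (f i)) (z τ) *
          (expG M.det (z τ) * z' τ j - ∑ l, expG (c j l) (z τ) * w l) =
          expG M.det (z τ) * (∑ j, expG (eD j (f i)) (z τ) * z' τ j) -
          ∑ l, (∑ j, expG (eD j (f i)) (z τ) * expG (c j l) (z τ)) * w l := by
        simp only [mul_sub, Finset.sum_sub_distrib, Finset.mul_sum, Finset.sum_mul]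
        rw [Finset.sum_comm (s := (Finset.univ : Finset (Fin n)))]
        congr 1
        · exact Finset.sum_congr rfl fun j _ => by ring
        · refine Finset.sum_congr rfl fun l _ => Finset.sum_congr rfl fun j _ => by ring
      rw [h5, h2]
      simp only [h3, Finset.mul_sum]
      rw [← Finset.sum_sub_distrib]
      exact Finset.sum_eq_zero fun l _ => by ring
    intro j
    exact sub_eq_zero.1 (congrFun h1 j)
  have hz'' : ∀ τ ∈ Icc (0 : ℝ) 1, ∀ h : MvPolynomial (Fin n ⊕ Fin n) k,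
      ∑ j, expG (eD j h) (z τ) * z' τ j =
        (∑ l, w l * expG (∑ j, c j l * eD j h) (z τ)) / expG M.det (z τ) := by
    intro τ hτ h
    have hd : expG M.det (z τ) ≠ 0 := by
      rw [hMdet]
      exact hzdet τ hτ
    rw [eq_div_iff hd, Finset.sum_mul]
    have h1 : ∀ j, expG (eD j h) (z τ) * z' τ j * expG M.det (z τ) =
        ∑ l, w l * (expG (c j l) (z τ) * expG (eD j h) (z τ)) := by
      intro j
      rw [mul_assoc, mul_comm (z' τ j), hz' τ hτ j, Finset.mul_sum]
      exact Finset.sum_congr rfl fun l _ => by ring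
    simp only [h1, op_sum, expG_mul0, Finset.mul_sum]
    exact Finset.sum_comm
  have hexpc : ∀ q : MvPolynomial (Fin n ⊕ Fin n) k,
      ContinuousOn (fun τ => expG q (z τ)) (Icc (0 : ℝ) 1) := fun q =>
    (contDiff_expG q 0).continuous.comp_continuousOn hzc
  -- the linear system
  let B : ℝ → Fin s → Fin s → ℂ := fun τ a b =>
    (∑ l, w l * expG (A l a b) (z τ)) / expG M.det (z τ)
  have hBc : ContinuousOn B (Icc (0 : ℝ) 1) := by
    refine continuousOn_pi.2 fun a => continuousOn_pi.2 fun b => ?_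
    refine ContinuousOn.div ?_ (hexpc _) fun τ hτ => ?_
    · exact continuousOn_finsetSum _ fun l _ => continuousOn_const.mul (hexpc _)
    · rw [hMdet]
      exact hzdet τ hτ
  obtain ⟨K, hK⟩ := isCompact_Icc.exists_bound_of_continuousOn hBc
  have hBK : ∀ τ ∈ Icc (0 : ℝ) 1, ∀ a b, ‖B τ a b‖ ≤ K := fun τ hτ a b =>
    ((norm_le_pi_norm (B τ a) b).trans (norm_le_pi_norm (B τ) a)).trans (hK τ hτ)
  have hzero := eq_zero_of_linear (fun τ a => expG (g a) (z τ))
    (fun τ a => ∑ j, expG (eD j (g a)) (z τ) * z' τ j) B K hBK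
    (fun τ hτ => hasDerivAt_pi.2 fun a => op_deriv (g a) (hzd τ hτ))
    (fun τ hτ a => by
      show ∑ j, expG (eD j (g a)) (z τ) * z' τ j = ∑ b, B τ a b * expG (g b) (z τ)
      rw [hz'' τ hτ]
      simp only [← hA, op_sum, expG_mul0, B]
      rw [Finset.sum_div]
      simp only [Finset.sum_div, Finset.mul_sum, Finset.sum_mul]
      rw [Finset.sum_comm]
      refine Finset.sum_congr rfl fun b _ => Finset.sum_congr rfl fun l _ => ?_
      ring)
    (by
      funext a
      show expG (g a) (z 0) = 0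
      rw [hz0]
      exact hp _ (hgI a))
  have hzI : ∀ τ ∈ Icc (0 : ℝ) 1, ∀ h : MvPolynomial (Fin n ⊕ Fin n) k,
      aeval (Sum.elim x y) h = 0 → expG h (z τ) = 0 := by
    intro τ hτ h hh
    obtain ⟨A', rfl⟩ := hspan h hh
    rw [op_sum]
    refine Finset.sum_eq_zero fun b _ => ?_
    have h1 : expG (g b) (z τ) = 0 := congrFun (hzero τ hτ) b
    rw [expG_mul0, h1, mul_zero]
  have h01 : (1 : ℝ) ∈ Icc (0 : ℝ) 1 := ⟨zero_le_one, le_refl 1⟩
  refine ⟨z 1, hzU 1 h01, hzI 1 h01, fun l' => ?_⟩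
  -- the values of the `G l`
  have hGd : ∀ τ ∈ Icc (0 : ℝ) 1, HasDerivAt (fun τ => expG (G l') (z τ)) (w l') τ := by
    intro τ hτ
    have h1 := op_deriv (G l') (hzd τ hτ)
    rw [hz'' τ hτ] at h1
    have hd : expG M.det (z τ) ≠ 0 := by
      rw [hMdet]
      exact hzdet τ hτ
    have h2 : ∀ l, expG (∑ j, c j l * eD j (G l')) (z τ) =
        (if l = l' then 1 else 0) * expG M.det (z τ) := by
      intro l
      have h3 : expG (∑ j, c j l * eD j (G l') - C (if l = l' then 1 else 0) * M.det) (z τ) = 0 := by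
        refine hzI τ hτ _ ?_
        rw [map_sub, hc2, hdual, map_mul, aeval_C]
        split_ifs <;> simp
      rw [op_sub, expG_mul0, expG_C0, sub_eq_zero] at h3
      rw [h3]
      split_ifs <;> simp
    have h4 : (∑ l, w l * expG (∑ j, c j l * eD j (G l')) (z τ)) / expG M.det (z τ) = w l' := by
      rw [div_eq_iff hd]
      simp only [h2]
      rw [Finset.sum_eq_single l']
      · rw [if_pos rfl, one_mul]
      · intro l _ hl
        rw [if_neg hl, zero_mul, mul_zero]
      · intro h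
        exact absurd (Finset.mem_univ _) h
    rw [h4] at h1
    exact h1
  have hconst := constant_of_has_deriv_right_zero
    (f := fun τ : ℝ => expG (G l') (z τ) - (τ : ℂ) * w l') (a := 0) (b := 1)
    ((hexpc (G l')).sub (by fun_prop))
    (fun τ hτ => by
      have h1 := hGd τ ⟨hτ.1, hτ.2.le⟩
      have h2 : HasDerivAt (fun τ : ℝ => (τ : ℂ) * w l') (w l') τ := by
        have h3 := (Complex.ofRealCLM.hasDerivAt (x := τ)).mul_const (w l')
        simpa using h3
      have h4 := (h1.sub h2).hasDerivWithinAt (s := Ici τ)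
      rw [sub_self] at h4
      exact h4) 1 h01
  simp only [Complex.ofReal_one, one_mul, Complex.ofReal_zero, zero_mul, sub_zero, hz0] at hconst
  rw [sub_eq_iff_eq_add] at hconst
  rw [hconst]
  show expG (G l') p + (t l' - expG (G l') p) = t l'
  ring

end Pool.Agent.Lib.MP_209724_lc.SC4
end

section

/-!
# Independent values in open sets
-/

namespace Pool.Agent.Lib.MP_209724_lc.SC4

open Filter Topology Pool.Agent.Lib.MP_209724_lc.SC

private theorem exists_near (k : Type) [Field k] [IsAlgClosed k] [Algebra k ℂ] (z : ℂ) {ε : ℝ}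
    (hε : 0 < ε) : ∃ c : k, ‖algebraMap k ℂ c - z‖ < ε := by
  obtain ⟨ι, hι⟩ : ∃ ι : k, algebraMap k ℂ ι = Complex.I := by
    obtain ⟨ι, hι⟩ := IsAlgClosed.exists_pow_nat_eq (-1 : k) (n := 2) (by norm_num)
    have h1 : (algebraMap k ℂ ι) ^ 2 = Complex.I ^ 2 := by
      rw [← map_pow, hι, map_neg, map_one, Complex.I_sq]
    rcases sq_eq_sq_iff_eq_or_eq_neg.1 h1 with h | h
    · exact ⟨ι, h⟩
    · exact ⟨-ι, by rw [map_neg, h, neg_neg]⟩
  obtain ⟨q₁, hq₁⟩ := exists_rat_near z.re (by linarith : 0 < ε / 2)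
  obtain ⟨q₂, hq₂⟩ := exists_rat_near z.im (by linarith : 0 < ε / 2)
  have hc : CharZero k := (algebraMap k ℂ).charZero
  refine ⟨(q₁ : k) + (q₂ : k) * ι, ?_⟩
  rw [map_add, map_mul, hι, map_ratCast, map_ratCast]
  refine (Complex.norm_le_abs_re_add_abs_im _).trans_lt ?_
  have h1 : ((q₁ : ℂ) + (q₂ : ℂ) * Complex.I - z).re = q₁ - z.re := by simp
  have h2 : ((q₁ : ℂ) + (q₂ : ℂ) * Complex.I - z).im = q₂ - z.im := by simp
  rw [h1, h2, abs_sub_comm (q₁ : ℝ), abs_sub_comm (q₂ : ℝ)]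
  linarith

/-- **Independent `E`-derivations at points of open sets.** Proof. Take `t`, `E` from `exists_eders k e`. There are
`b j ∈ ℚ(i)` arbitrarily close to `t₀ j` and a rational `a > 0` with `a * t j` arbitrarily small; `E l` is `0` on `k`,
which contains `ℚ(i)` (`k` is algebraically closed), so `E l (a * t j + b j) = a * E l (t j)`, and the determinant
is multiplied by `a ^ e ≠ 0` (`Matrix.det_smul` or `Matrix.det_mul_column`). -/
theorem exists_eders_near (k : Type) [Field k] [IsAlgClosed k] [Algebra k ℂ] [Countable k] (e : ℕ)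
    (t₀ : Fin e → ℂ) {S : Set (Fin e → ℂ)} (hS : S ∈ 𝓝 t₀) :
    ∃ t ∈ S, ∃ D : Fin e → Derivation k ℂ ℂ,
      (∀ l z, D l (Complex.exp z) = Complex.exp z * D l z) ∧
      Matrix.det (fun l j => D l (t j)) ≠ 0 := by
  obtain ⟨t, D, hE, hdet⟩ := exists_eders k e
  obtain ⟨ε, hε, hball⟩ := Metric.mem_nhds_iff.1 hS
  have hd : ∀ j, ∃ c : k, ‖algebraMap k ℂ c - t₀ j‖ < ε / 2 := fun j =>
    exists_near k (t₀ j) (by linarith)
  choose b hb using hd
  obtain ⟨N, hN⟩ := exists_nat_gt (2 * (‖t‖ + 1) / ε)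
  have hN0 : (0 : ℝ) < N := lt_trans (by positivity) hN
  have hNC : (N : ℂ) ≠ 0 := by
    intro h
    have h1 : N = 0 := by exact_mod_cast h
    rw [h1] at hN0
    simp at hN0
  have hsmall : ∀ j, ‖((N : ℂ)⁻¹) * t j‖ < ε / 2 := by
    intro j
    rw [norm_mul, norm_inv, Complex.norm_natCast]
    have h1 : ‖t j‖ ≤ ‖t‖ := norm_le_pi_norm t j
    rw [inv_mul_lt_iff₀ hN0]
    have h2 : 2 * (‖t‖ + 1) < N * ε := by
      rwa [div_lt_iff₀ hε] at hN
    linarith
  refine ⟨fun j => (N : ℂ)⁻¹ * t j + algebraMap k ℂ (b j), hball ?_, D, hE, ?_⟩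
  · rw [Metric.mem_ball, dist_pi_lt_iff hε]
    intro j
    rw [dist_eq_norm]
    have h1 : (N : ℂ)⁻¹ * t j + algebraMap k ℂ (b j) - t₀ j =
        (N : ℂ)⁻¹ * t j + (algebraMap k ℂ (b j) - t₀ j) := by ring
    rw [h1]
    refine (norm_add_le _ _).trans_lt ?_
    linarith [hsmall j, hb j]
  · have h1 : (Matrix.of fun l j => D l ((N : ℂ)⁻¹ * t j + algebraMap k ℂ (b j))) =
        (N : ℂ)⁻¹ • (Matrix.of fun l j => D l (t j)) := by
      ext l j
      have h2 : (N : ℂ)⁻¹ * t j = ((N : k)⁻¹) • t j := by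
        rw [Algebra.smul_def, map_inv₀, map_natCast]
      have h3 : D l ((N : ℂ)⁻¹ * t j + algebraMap k ℂ (b j)) = (N : ℂ)⁻¹ * D l (t j) := by
        rw [map_add, Derivation.map_algebraMap, add_zero, h2, Derivation.map_smul, Algebra.smul_def,
          map_inv₀, map_natCast]
      exact h3
    have h4 : Matrix.det (Matrix.of fun l j => D l ((N : ℂ)⁻¹ * t j + algebraMap k ℂ (b j))) ≠ 0 := by
      rw [h1, Matrix.det_smul]
      exact mul_ne_zero (pow_ne_zero _ (inv_ne_zero hNC)) hdet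
    exact h4

end Pool.Agent.Lib.MP_209724_lc.SC4
end

section

/-!
# Generic exponential points from Zariski dense ones, without cutting
-/

namespace Pool.Agent.Lib.MP_209724_lc.SC4

open MvPolynomial Filter Topology Pool.Agent.Lib.MP_209724_lc.SC

/-- **The core.** As `SC.core`, but the exponential points are only assumed to be Zariski dense in `V`. -/
theorem core {k F : Type} [Field k] [IsAlgClosed k] [Countable k] [Algebra k ℂ] [Field F]
    [Algebra k F] {n e : ℕ} (x y : Fin n → F) (hy : ∀ i, y i ≠ 0)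
    (hgen : IntermediateField.adjoin k (Set.range x ∪ Set.range y) = ⊤)
    (htd : Algebra.trdeg k F = ((n + e : ℕ) : Cardinal)) (hs : Strict k x y)
    (G : Fin e → MvPolynomial (Fin n ⊕ Fin n) k)
    (hG : ∀ D : Derivation k F F, (∀ i, D (y i) = y i * D (x i)) →
      (∀ l, D (aeval (Sum.elim x y) (G l)) = 0) → D = 0)
    (hpt : ∀ d : MvPolynomial (Fin n ⊕ Fin n) k, aeval (Sum.elim x y) d ≠ 0 →
      ∃ p : Fin n → ℂ, (∀ f : MvPolynomial (Fin n ⊕ Fin n) k, aeval (Sum.elim x y) f = 0 →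
        expG f p = 0) ∧ expG d p ≠ 0) :
    ∃ p : Fin n → ℂ, (∀ f : MvPolynomial (Fin n ⊕ Fin n) k, aeval (Sum.elim x y) f = 0 →
        expG f p = 0) ∧
      ∃ s : Fin n ⊕ Fin e → ℂ, AlgebraicIndependent k s ∧
        ∀ a, s a ∈ Set.range p ∪ Set.range fun i => Complex.exp (p i) := by
  classical
  have hk0 : CharZero k := by
    have := (algebraMap k ℂ).charZero_iff (algebraMap k ℂ).injective
    exact this.2 inferInstance
  obtain ⟨D, hxy, hdual⟩ := exists_nabla x y htd (fun l => aeval (Sum.elim x y) (G l)) hG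
  have hlin := nabla_lin x y hgen _ D hxy hdual
  have hc : ∀ a : F, (∀ l, D l a = 0) → ∃ c : k, a = algebraMap k F c := fun a ha =>
    consts_eq D x y hy hxy hlin htd hs a ha
  obtain ⟨r, α, C, hα, hdetα, hC⟩ := exists_words x D hc
  obtain ⟨f, hf, hdetf⟩ := exists_delta x y G hG
  let S : Finset F := (Finset.univ.image fun li : Fin e × Fin n => D li.1 (x li.2)) ∪
    {(Matrix.det (fun i j => aeval (Sum.elim x y) (eD j (f i))))⁻¹,
      (Matrix.det (fun i j => word D (α i) (x (C j))))⁻¹}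
  obtain ⟨d, hd, hS⟩ := exists_denom x y hgen S
  have hmem : ∀ l, ∀ a ∈ locA x y d, D l a ∈ locA x y d := by
    intro l a ha
    refine deriv_mem_locA x y d (D l) (hxy l) (fun i => hS _ ?_) ha
    exact Finset.mem_union_left _ (Finset.mem_image.2 ⟨(l, i), Finset.mem_univ _, rfl⟩)
  -- the determinant as a polynomial
  obtain ⟨δ, hδ⟩ : ∃ δ : MvPolynomial (Fin n ⊕ Fin n) k,
      δ = Matrix.det (fun i j => eD j (f i)) := ⟨_, rfl⟩
  have hδF : aeval (Sum.elim x y) δ ≠ 0 := by
    rw [hδ, AlgHom.map_det]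
    exact hdetf
  obtain ⟨p₀, hp₀, hp₀d⟩ := hpt (d * δ) (by rw [map_mul]; exact mul_ne_zero hd hδF)
  have hp₀d1 : expG d p₀ ≠ 0 := by
    intro h0
    apply hp₀d
    rw [expG_mul0, h0, zero_mul]
  have hp₀d2 : Matrix.det (fun i j => expG (eD j (f i)) p₀) ≠ 0 := by
    intro h0
    apply hp₀d
    have h1 : expG δ p₀ = 0 := by
      rw [hδ]
      unfold expG
      rw [AlgHom.map_det]
      exact h0
    rw [expG_mul0, h1, mul_zero]
  have hU : {z : Fin n → ℂ | expG d z ≠ 0} ∈ 𝓝 p₀ :=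
    ((contDiff_expG d 1).continuous.isOpen_preimage _ isOpen_compl_singleton).mem_nhds hp₀d1
  obtain ⟨t, ht, E, hE, hdetE⟩ := exists_eders_near k e _
    (exists_open x y D hxy G hdual f hf p₀ hp₀ hp₀d2 hU)
  obtain ⟨p, hp2, hp1, hp3⟩ := ht
  obtain ⟨φ, hφ⟩ := exists_evalHom x y d hd p (fun i => Complex.exp (p i)) hp1 hp2
  have hφ' : ∀ f : MvPolynomial (Fin n ⊕ Fin n) k,
      φ ⟨aeval (Sum.elim x y) f, aeval_mem_locA x y d f⟩ = expG f p := hφ
  have hchain : ∀ l' (a : locA x y d),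
      E l' (φ a) = ∑ l, E l' (expG (G l) p) * φ ⟨D l a, hmem l a a.2⟩ := fun l' a =>
    chain x y d hd D hxy hmem G hdual f hf hdetf
      (hS _ (Finset.mem_union_right _ (by simp))) p φ hφ' (E l') (hE l') a
  have hE2 : Matrix.det (fun l' l => E l' (expG (G l) p)) ≠ 0 := by
    simp only [hp3]
    exact hdetE
  have hφx : ∀ i, φ ⟨x i, x_mem_locA x y d i⟩ = p i := by
    intro i
    have h := hφ' (X (Sum.inl i))
    have h1 : aeval (Sum.elim x y) (X (Sum.inl i) : MvPolynomial (Fin n ⊕ Fin n) k) = x i := by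
      simp
    have h2 : expG (X (Sum.inl i) : MvPolynomial (Fin n ⊕ Fin n) k) p = p i := by
      simp [expG]
    rw [← h2, ← h]
    congr 1
    exact Subtype.ext h1.symm
  refine ⟨p, hp1, ax_point p E hE G hE2 ?_⟩
  intro m hm
  obtain ⟨c, hc'⟩ := rel_of_rel x y d D hmem G p φ hφx E hchain hE2 α C hα hdetα
    (hS _ (Finset.mem_union_right _ (by simp))) hC m hm
  exact free_of_strict x y hs m c hc'

end Pool.Agent.Lib.MP_209724_lc.SC4
end

section

/-!
# From Zariski dense to generic exponential points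

`final_dense`: let `V` be strongly rotund and suppose that the exponential points are Zariski dense in
`V`. Then `V` has exponential points which are generic over a given countable field of definition.
-/

namespace Pool.Agent.Lib.MP_209724_lc.SC4

open MvPolynomial Pool.Agent.Lib.MP_209724_lc.SC Pool.Agent.Lib.MP_209724_lc.SC2

/-- SC4: Zariski dense exponential points give generic ones. -/
theorem final_dense {n : ℕ} (hn : 0 < n) (Q : Ideal (MvPolynomial (Fin n ⊕ Fin n) ℂ))
    [Q.IsPrime]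
    (hy0 : ∀ i, (X (Sum.inr i) : MvPolynomial (Fin n ⊕ Fin n) ℂ) ∉ Q)
    {L : Type} [Field L] [Algebra ℂ L] (x y : Fin n → L)
    (hxy : ∀ f : MvPolynomial (Fin n ⊕ Fin n) ℂ, aeval (Sum.elim x y) f = 0 ↔ f ∈ Q)
    (hstr : ∀ B : Matrix (Fin n) (Fin n) ℤ, B ≠ 0 →
      ((B.map (Int.cast : ℤ → ℚ)).rank : Cardinal) <
        Algebra.trdeg ℂ (Algebra.adjoin ℂ (Set.range (fun i => ∑ j, (B i j : L) * x j) ∪
          Set.range fun i => ∏ j, y j ^ B i j)))
    (hdens : ∀ D ∉ Q, ∃ p : Fin n → ℂ,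
      (∀ f ∈ Q, eval (Sum.elim p fun i => Complex.exp (p i)) f = 0) ∧
      eval (Sum.elim p fun i => Complex.exp (p i)) D ≠ 0)
    (K : Type) [Field K] [Algebra K ℂ] [Countable K]
    (I : Ideal (MvPolynomial (Fin n ⊕ Fin n) K)) (hQ : Q = I.map (map (algebraMap K ℂ))) :
    ∃ p : Fin n → ℂ,
      (∀ f ∈ Q, eval (Sum.elim p fun i => Complex.exp (p i)) f = 0) ∧
      Algebra.trdeg K (Algebra.adjoin K (Set.range p ∪ Set.range fun i => Complex.exp (p i))) =
        Algebra.trdeg ℂ (MvPolynomial (Fin n ⊕ Fin n) ℂ ⧸ Q) := by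
  classical
  obtain ⟨N, hN⟩ : ∃ N : ℕ, Algebra.trdeg ℂ
      (MvPolynomial (Fin n ⊕ Fin n) ℂ ⧸ Q) = N :=
    Cardinal.lt_aleph0.1 trdeg_lt_aleph0_of_finiteType
  have hAN : Algebra.trdeg ℂ (Algebra.adjoin ℂ (Set.range x ∪ Set.range y)) = N :=
    (trdeg_adjoin_gen Q x y hxy).trans hN
  -- `N ≥ n + 1`
  have hNn : n ≤ N := by
    have hB0 : (1 : Matrix (Fin n) (Fin n) ℤ) ≠ 0 := by
      intro h0
      have h1 := congrFun (congrFun h0 ⟨0, hn⟩) ⟨0, hn⟩
      simp at h1
    have h1 := hstr 1 hB0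
    have h2 : ((1 : Matrix (Fin n) (Fin n) ℤ).map (Int.cast : ℤ → ℚ)) = 1 := by
      ext i j
      by_cases hij : i = j
      · subst hij; simp
      · simp [Matrix.one_apply_ne hij]
    have h3 : (Set.range fun i => ∑ j, (((1 : Matrix (Fin n) (Fin n) ℤ) i j : ℤ) : L) * x j) =
        Set.range x := by
      congr 1
      funext i
      rw [Finset.sum_eq_single i (fun j _ hj => by
        rw [Matrix.one_apply_ne hj.symm, Int.cast_zero, zero_mul])
        (fun h => absurd (Finset.mem_univ _) h), Matrix.one_apply_eq, Int.cast_one, one_mul]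
    have h4 : (Set.range fun i => ∏ j, y j ^ (1 : Matrix (Fin n) (Fin n) ℤ) i j) =
        Set.range y := by
      congr 1
      funext i
      rw [Finset.prod_eq_single i (fun j _ hj => by
        rw [Matrix.one_apply_ne hj.symm, zpow_zero])
        (fun h => absurd (Finset.mem_univ _) h), Matrix.one_apply_eq, zpow_one]
    rw [h3, h4, hAN, h2, Matrix.rank_one, Fintype.card_fin, Nat.cast_lt] at h1
    exact h1.le
  obtain ⟨e, rfl⟩ := Nat.exists_eq_add_of_le hNn
  -- the field of constants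
  have hc : Countable (algebraicClosure K ℂ) := countable_algClosure K
  have hac : IsAlgClosed (algebraicClosure K ℂ) := isAlgClosed_algClosure K
  set k := algebraicClosure K ℂ with hk
  have hk0 : CharZero k := by
    have := (algebraMap k ℂ).charZero_iff (algebraMap k ℂ).injective
    exact this.2 inferInstance
  have hIK : Q = (I.map (map (algebraMap K k))).map (map (algebraMap k ℂ)) := by
    rw [Ideal.map_map, hQ]
    congr 1
    refine MvPolynomial.ringHom_ext (fun a => ?_) (fun i => ?_)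
    · simp only [RingHom.comp_apply, map_C]
      rfl
    · simp only [RingHom.comp_apply, map_X]
  have htd := trdeg_FK k Q _ hIK
  rw [hN] at htd
  have hs := strict_FK k Q x y hxy hstr
  have hyK : ∀ i, yK k Q i ≠ 0 := fun i h0 => hy0 i (by
    have h1 := (fnK_eq_zero k Q (X (Sum.inr i))).1 h0
    rwa [map_X] at h1)
  obtain ⟨d, J, hJ1, hJ2⟩ := exists_coords (k := k) (xK k Q)
  obtain ⟨a, ha1, ha2⟩ := exists_G (xK k Q) (yK k Q) hyK (gen_FK k Q) htd hs J hJ1 hJ2
  obtain ⟨p, hp1, s, hs1, hs2⟩ := core (xK k Q) (yK k Q) hyK (gen_FK k Q) htd hs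
    (fun l => ∑ j, C (a l j) * X (Sum.inr j)) (by
      intro D hD h0
      refine ha2 D hD fun l => ?_
      have h1 := h0 l
      have h2 : aeval (Sum.elim (xK k Q) (yK k Q)) (∑ j, C (a l j) * X (Sum.inr j) :
          MvPolynomial (Fin n ⊕ Fin n) k) =
          ∑ j, algebraMap k (FK k Q) (a l j) * yK k Q j := by
        rw [map_sum]
        refine Finset.sum_congr rfl fun j _ => ?_
        rw [map_mul, aeval_C, aeval_X, Sum.elim_inr]
      rw [h2] at h1
      exact h1)
    (by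
      intro dd hdd
      obtain ⟨p, hp1, hp2⟩ := hdens (map (algebraMap k ℂ) dd)
        (fun h => hdd ((aeval_eq_zero_iff k Q dd).2 h))
      refine ⟨p, fun f hf => ?_, ?_⟩
      · rw [← eval_map_expG]
        exact hp1 _ ((aeval_eq_zero_iff k Q f).1 hf)
      · rw [← eval_map_expG]
        exact hp2)
  have hst : IsScalarTower K k ℂ := IsScalarTower.of_algebraMap_eq fun _ => rfl
  exact ⟨p, conclude Q K I hQ k hN p hp1 (by simp) s hs1 hs2⟩

end Pool.Agent.Lib.MP_209724_lc.SC4
end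

section

/-!
# Generic exponential points on strongly rotund varieties of codimension at most two
-/

namespace Pool.Agent.Lib.MP_209724_lc.SC4

open MvPolynomial
open OV (td IsConst)

variable {n : ℕ}

/-- A strongly rotund variety is free and rotund. -/
theorem free_rot {L : Type} [Field L] [Algebra ℂ L] (x y : Fin n → L)
    (hstr : ∀ B : Matrix (Fin n) (Fin n) ℤ, B ≠ 0 →
      ((B.map (Int.cast : ℤ → ℚ)).rank : Cardinal) <
        Algebra.trdeg ℂ (Algebra.adjoin ℂ (Set.range (fun i => ∑ j, (B i j : L) * x j) ∪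
          Set.range fun i => ∏ j, y j ^ B i j))) :
    (∀ m : Fin n → ℤ, m ≠ 0 → ∀ c : ℂ, ∑ i, (m i : L) * x i ≠ algebraMap ℂ L c ∧
      ∏ i, y i ^ m i ≠ algebraMap ℂ L c) ∧
    ∀ B : Matrix (Fin n) (Fin n) ℤ, ((B.map (Int.cast : ℤ → ℚ)).rank : Cardinal) ≤
      Algebra.trdeg ℂ (Algebra.adjoin ℂ (Set.range (fun i => ∑ j, (B i j : L) * x j) ∪
        Set.range fun i => ∏ j, y j ^ B i j)) := by
  classical
  constructor
  · intro m hm c
    obtain ⟨i₀, hi₀⟩ : ∃ i, m i ≠ 0 := by
      by_contra hc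
      push Not at hc
      exact hm (funext hc)
    let B : Matrix (Fin n) (Fin n) ℤ := fun i j => if i = i₀ then m j else 0
    have hB : B ≠ 0 := by
      intro h0
      have h1 := congrFun (congrFun h0 i₀) i₀
      simp only [B, if_true, Matrix.zero_apply] at h1
      exact hi₀ h1
    have hr : 1 ≤ (B.map (Int.cast : ℤ → ℚ)).rank := by
      rw [Nat.one_le_iff_ne_zero]
      intro h0
      rw [Matrix.rank, Submodule.finrank_eq_zero, LinearMap.range_eq_bot] at h0
      have h1 := congrFun (LinearMap.congr_fun h0 (Pi.single i₀ 1)) i₀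
      simp only [Matrix.mulVecLin_apply, Matrix.mulVec_single_one, Matrix.col_apply,
        Matrix.map_apply, B, if_true, LinearMap.zero_apply, Pi.zero_apply] at h1
      exact hi₀ (by exact_mod_cast h1)
    have h2 : ((2 : ℕ) : ℕ∞) ≤ td (Set.range (fun i => ∑ j, (B i j : L) * x j) ∪
        Set.range fun i => ∏ j, y j ^ B i j) := by
      apply OV.le_td_of_trdeg_adjoin
      have h3 := hstr B hB
      have h4 : ((1 : ℕ) : Cardinal) < Algebra.trdeg ℂ (Algebra.adjoin ℂ
          (Set.range (fun i => ∑ j, (B i j : L) * x j) ∪ Set.range fun i => ∏ j, y j ^ B i j)) :=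
        lt_of_le_of_lt (by exact_mod_cast hr) h3
      have h5 := Cardinal.natCast_add_one_le_iff.2 h4
      refine le_trans (le_of_eq ?_) h5
      norm_num
    -- both sides are in the closure of one element if one of the two functions is constant
    have key : ∀ b : L, ((∑ i, (m i : L) * x i) ∈ OV.cl ({b} : Set L)) →
        ((∏ i, y i ^ m i) ∈ OV.cl ({b} : Set L)) → False := by
      intro b hb1 hb2
      have h6 : td (Set.range (fun i => ∑ j, (B i j : L) * x j) ∪
        Set.range fun i => ∏ j, y j ^ B i j) ≤ td ({b} : Set L) := by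
        refine OV.td_le_of_subset_cl ?_
        rintro _ (⟨i, rfl⟩ | ⟨i, rfl⟩)
        · by_cases hi : i = i₀
          · simp only [B, if_pos hi]
            exact hb1
          · simp only [B, if_neg hi, Int.cast_zero, zero_mul, Finset.sum_const_zero]
            have := OV.const_mem_cl ({b} : Set L) 0
            rwa [map_zero] at this
        · by_cases hi : i = i₀
          · simp only [B, if_pos hi]
            exact hb2
          · simp only [B, if_neg hi, zpow_zero, Finset.prod_const_one]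
            have := OV.const_mem_cl ({b} : Set L) 1
            rwa [map_one] at this
      have h7 := h2.trans (h6.trans (OV.td_singleton_le b))
      exact absurd h7 (by decide)
    constructor
    · intro h
      refine key (∏ i, y i ^ m i) ?_ (OV.subset_cl _ rfl)
      rw [h]
      exact OV.const_mem_cl _ c
    · intro h
      refine key (∑ i, (m i : L) * x i) (OV.subset_cl _ rfl) ?_
      rw [h]
      exact OV.const_mem_cl _ c
  · intro B
    by_cases hB : B = 0
    · subst hB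
      have h1 : ((0 : Matrix (Fin n) (Fin n) ℤ).map (Int.cast : ℤ → ℚ)) = 0 := by
        ext i j
        simp
      rw [h1, Matrix.rank_zero]
      simp
    · exact (hstr B hB).le

/-- The dimension of a strongly rotund variety is greater than `n`. -/
theorem dim_gt {n : ℕ} (hn : 0 < n) (Q : Ideal (MvPolynomial (Fin n ⊕ Fin n) ℂ)) [Q.IsPrime]
    {L : Type} [Field L] [Algebra ℂ L] (x y : Fin n → L)
    (hxy : ∀ f : MvPolynomial (Fin n ⊕ Fin n) ℂ, aeval (Sum.elim x y) f = 0 ↔ f ∈ Q)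
    (hstr : ∀ B : Matrix (Fin n) (Fin n) ℤ, B ≠ 0 →
      ((B.map (Int.cast : ℤ → ℚ)).rank : Cardinal) <
        Algebra.trdeg ℂ (Algebra.adjoin ℂ (Set.range (fun i => ∑ j, (B i j : L) * x j) ∪
          Set.range fun i => ∏ j, y j ^ B i j))) :
    (n : Cardinal) < Algebra.trdeg ℂ (MvPolynomial (Fin n ⊕ Fin n) ℂ ⧸ Q) := by
  have hB0 : (1 : Matrix (Fin n) (Fin n) ℤ) ≠ 0 := by
    intro h0
    have h1 := congrFun (congrFun h0 ⟨0, hn⟩) ⟨0, hn⟩
    simp at h1
  have h1 := hstr 1 hB0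
  have h2 : ((1 : Matrix (Fin n) (Fin n) ℤ).map (Int.cast : ℤ → ℚ)) = 1 := by
    ext i j
    by_cases hij : i = j
    · subst hij; simp
    · simp [Matrix.one_apply_ne hij]
  have h3 : (Set.range fun i => ∑ j, (((1 : Matrix (Fin n) (Fin n) ℤ) i j : ℤ) : L) * x j) =
      Set.range x := by
    congr 1
    funext i
    rw [Finset.sum_eq_single i (fun j _ hj => by
      rw [Matrix.one_apply_ne hj.symm, Int.cast_zero, zero_mul])
      (fun h => absurd (Finset.mem_univ _) h), Matrix.one_apply_eq, Int.cast_one, one_mul]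
  have h4 : (Set.range fun i => ∏ j, y j ^ (1 : Matrix (Fin n) (Fin n) ℤ) i j) =
      Set.range y := by
    congr 1
    funext i
    rw [Finset.prod_eq_single i (fun j _ hj => by
      rw [Matrix.one_apply_ne hj.symm, zpow_zero])
      (fun h => absurd (Finset.mem_univ _) h), Matrix.one_apply_eq, zpow_one]
  rw [h3, h4, h2, Matrix.rank_one, Fintype.card_fin, SC2.trdeg_adjoin_gen Q x y hxy] at h1
  exact h1

/-- **Generic exponential points** on strongly rotund varieties of codimension at most two. -/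
theorem final_few {n : ℕ} (hn : 0 < n) (Q : Ideal (MvPolynomial (Fin n ⊕ Fin n) ℂ))
    [Q.IsPrime]
    (hy0 : ∀ i, (X (Sum.inr i) : MvPolynomial (Fin n ⊕ Fin n) ℂ) ∉ Q)
    {L : Type} [Field L] [Algebra ℂ L] (x y : Fin n → L)
    (hxy : ∀ f : MvPolynomial (Fin n ⊕ Fin n) ℂ, aeval (Sum.elim x y) f = 0 ↔ f ∈ Q)
    (hstr : ∀ B : Matrix (Fin n) (Fin n) ℤ, B ≠ 0 →
      ((B.map (Int.cast : ℤ → ℚ)).rank : Cardinal) <
        Algebra.trdeg ℂ (Algebra.adjoin ℂ (Set.range (fun i => ∑ j, (B i j : L) * x j) ∪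
          Set.range fun i => ∏ j, y j ^ B i j)))
    (hdim : (2 * n : Cardinal) ≤ Algebra.trdeg ℂ (MvPolynomial (Fin n ⊕ Fin n) ℂ ⧸ Q) + 2)
    (K : Type) [Field K] [Algebra K ℂ] [Countable K]
    (I : Ideal (MvPolynomial (Fin n ⊕ Fin n) K)) (hQ : Q = I.map (map (algebraMap K ℂ))) :
    ∃ p : Fin n → ℂ,
      (∀ f ∈ Q, eval (Sum.elim p fun i => Complex.exp (p i)) f = 0) ∧
      Algebra.trdeg K (Algebra.adjoin K (Set.range p ∪ Set.range fun i => Complex.exp (p i))) =
        Algebra.trdeg ℂ (MvPolynomial (Fin n ⊕ Fin n) ℂ ⧸ Q) := by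
  refine final_dense hn Q hy0 x y hxy hstr (fun D hD => ?_) K I hQ
  obtain ⟨hfree, hrot⟩ := free_rot x y hstr
  have hyne : ∀ i, y i ≠ 0 := by
    intro i h0
    apply hy0 i
    rw [← hxy, aeval_X]
    exact h0
  obtain ⟨p, hp, hpD⟩ := CT.dense hn x y hyne hfree hrot
    (by rw [SC2.trdeg_adjoin_gen Q x y hxy]; exact hdim) D (fun h => hD ((hxy D).1 h))
  exact ⟨p, fun f hf => hp f ((hxy f).2 hf), hpD⟩

end Pool.Agent.Lib.MP_209724_lc.SC4
end

section

/-!
# Generic exponential points of strongly rotund varieties over a variety in general or proper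
position at infinity
-/

namespace Pool.Agent.Lib.MP_209724_lc.SC3

open MvPolynomial
open GC (cone)

/-- **Generic exponential points.** `V` strongly rotund (`Q`), the closure `W` of its projection to
`ℂ ^ n` has dimension `d > 0` and its asymptotic cone has a component (`q`) of dimension `d` which is
in general position with dense real points or in proper position. -/
theorem final {n d : ℕ} (hn : 0 < n) (hd : 0 < d) (Q : Ideal (MvPolynomial (Fin n ⊕ Fin n) ℂ)) [Q.IsPrime]
    (hy : ∀ i, (X (Sum.inr i) : MvPolynomial (Fin n ⊕ Fin n) ℂ) ∉ Q)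
    {L : Type} [Field L] [Algebra ℂ L] (x y : Fin n → L)
    (hxy : ∀ f : MvPolynomial (Fin n ⊕ Fin n) ℂ, aeval (Sum.elim x y) f = 0 ↔ f ∈ Q)
    (hstr : ∀ B : Matrix (Fin n) (Fin n) ℤ, B ≠ 0 →
      ((B.map (Int.cast : ℤ → ℚ)).rank : Cardinal) <
        Algebra.trdeg ℂ (Algebra.adjoin ℂ (Set.range (fun i => ∑ j, (B i j : L) * x j) ∪
          Set.range fun i => ∏ j, y j ^ B i j)))
    (hpd : Algebra.trdeg ℂ (MvPolynomial (Fin n) ℂ ⧸ Q.comap (rename (R := ℂ) Sum.inl)) = d)
    (q : Ideal (MvPolynomial (Fin n) ℂ)) [q.IsPrime]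
    (hq : Algebra.trdeg ℂ (MvPolynomial (Fin n) ℂ ⧸ q) = d)
    (hq1 : ∀ z : Fin n → ℂ, (∀ f ∈ q, eval z f = 0) → z ∈ cone (Q.comap (rename Sum.inl)))
    (hq2 : ∃ G ∉ q, ∀ z ∈ cone (Q.comap (rename Sum.inl)), eval z G ≠ 0 →
      ∀ f ∈ q, eval z f = 0)
    (hor : ((∀ f ∉ q, ∃ η : Fin n → ℝ, (∀ h ∈ q, eval (fun i => (η i : ℂ)) h = 0) ∧
      eval (fun i => (η i : ℂ)) f ≠ 0) ∧
      ∀ m : Fin d → Fin n → ℤ, LinearIndependent ℤ m →
        AlgebraicIndependent ℂ fun j => Ideal.Quotient.mk q (∑ k, C (m j k : ℂ) * X k)) ∨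
      ∀ m : Fin d → Fin n → ℤ, LinearIndependent ℤ m → ∀ z : Fin n → ℂ,
        (∀ f ∈ q, eval z f = 0) → (∀ j, ∑ i, (m j i : ℂ) * z i = 0) → z = 0)
    (K : Type) [Field K] [Algebra K ℂ] [Countable K]
    (I : Ideal (MvPolynomial (Fin n ⊕ Fin n) K)) (hQ : Q = I.map (map (algebraMap K ℂ))) :
    ∃ p : Fin n → ℂ,
      (∀ f ∈ Q, eval (Sum.elim p fun i => Complex.exp (p i)) f = 0) ∧
      Algebra.trdeg K (Algebra.adjoin K (Set.range p ∪ Set.range fun i => Complex.exp (p i))) =
        Algebra.trdeg ℂ (MvPolynomial (Fin n ⊕ Fin n) ℂ ⧸ Q) := by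
  refine SC2.final_general hn Q hy x y hxy hstr ?_ K I hQ
  intro Q' hQ' hy' hdim' hQQ' D hD
  have hcomap : Q'.comap (rename (R := ℂ) (Sum.inl : Fin n → Fin n ⊕ Fin n)) =
      Q.comap (rename (R := ℂ) Sum.inl) := by
    ext f
    exact hQQ' f
  obtain ⟨p, -, h1, h2⟩ := GF.final hd Q' hy' (le_of_eq hdim'.symm) (Q.comap (rename Sum.inl))
    (fun c => (hQQ' c).symm) hpd q hq hq1 hq2 hor D hD 0
  exact ⟨p, h1, h2⟩

end Pool.Agent.Lib.MP_209724_lc.SC3
end
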